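import Pool.Agent.J4.H66.Sep

/-!
# Biorthogonal systems whose dual parts have weak*-closed partial spans

Every infinite-dimensional Banach space `E` with separable dual has a biorthogonal system `(x_n, f_n)` with `[x_n] = E` and
`[f_n] = E*` such that `[f_{n_k}] = ([x_j : j ≠ n_1, n_2, …])^⊥` for every increasing sequence `(n_k)`. In particular all these
spans are weak*-closed.

Idea. Start with any biorthogonal system with `[e_n] = E`, `[f_n] = E*`. Cut `ω` into long blocks `B = A ∪ D` and change the basis
in each block by the matrix `V` with the entries `i ^ j` for `j ∈ A` and `τ i ^ j` for `j ∈ D`, with a tiny `τ`. Any `|A|` rows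
of the `A`-part of `V` are independent. If `g ∈ E*`, `G ∈ E**` have disjoint supports in the new system, then either the
coordinates of `g` in `A` are almost zero, so that `g` is close to its partial sum before the block (as the `e_n` up to the
end of `A` norm the span of the `f_n` before the block), or `G` has fewer than `|A|` nonzero coordinates in the block and is
therefore almost zero on the `D`-part, so that `G` is close to an element of `E` on the span of the `f_n` up to the end of the
block. In both cases `G g` is almost zero.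
-/

set_option autoImplicit false

namespace Pool.Agent.Results.MP_0543b0_an.ClosedPartialSpans

open Set Submodule TopologicalSpace

/-- **Affirmative answer to Q1.** Let `E` be an infinite-dimensional real or complex Banach space with norm-separable dual. There
is a biorthogonal system `(x_n, f_n)` in `E × E*` with `[x_n] = E` and `[f_n] = E*` such that for every increasing sequence
`(n_k)` the norm-closed span `[f_{n_k}]` is `σ(E*, E)`-closed; moreover it is the annihilator of `{x_j : j ∉ {n_k}}`. -/
theorem result {𝕜 : Type*} [RCLike 𝕜] {E : Type*} [NormedAddCommGroup E] [NormedSpace 𝕜 E] [CompleteSpace E]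
    (hinf : ¬ FiniteDimensional 𝕜 E) [SeparableSpace (StrongDual 𝕜 E)] :
    ∃ (x : ℕ → E) (f : ℕ → StrongDual 𝕜 E),
      (∀ i j, f i (x j) = if i = j then 1 else 0) ∧
      closure (span 𝕜 (range x) : Set E) = univ ∧
      closure (span 𝕜 (range f) : Set (StrongDual 𝕜 E)) = univ ∧
      ∀ n : ℕ → ℕ, StrictMono n →
        IsClosed (StrongDual.toWeakDual (𝕜 := 𝕜) (E := E) ''
          closure (span 𝕜 (range fun k => f (n k)) : Set (StrongDual 𝕜 E))) ∧
        closure (span 𝕜 (range fun k => f (n k)) : Set (StrongDual 𝕜 E)) =
          {g | ∀ j, (∀ k, n k ≠ j) → g (x j) = 0} := by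
  have := Pool.Agent.J4.H66.Sep.separable_of_dual 𝕜 E
  obtain ⟨e, f0, h1, h2, h3⟩ := Pool.Agent.J4.H66.Mark.exists_system (𝕜 := 𝕜) (E := E) hinf
  obtain ⟨x, f, hs, hstrong⟩ := Pool.Agent.J4.H66.Strong.exists_strong (e := e) (f := f0) ⟨h1, h2, h3⟩
  refine ⟨x, f, hs.bi, hs.dense_e.closure_eq, hs.dense_f.closure_eq, fun n _ => ?_⟩
  have key : closure (span 𝕜 (range fun k => f (n k)) : Set (StrongDual 𝕜 E)) =
      {g | ∀ j, (∀ k, n k ≠ j) → g (x j) = 0} := by
    apply Subset.antisymm
    · refine closure_minimal ?_ ?_
      · intro g hg j hj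
        have hle : span 𝕜 (range fun k => f (n k)) ≤
            LinearMap.ker ((ContinuousLinearMap.apply 𝕜 𝕜 (x j) : StrongDual 𝕜 E →L[𝕜] 𝕜) : StrongDual 𝕜 E →ₗ[𝕜] 𝕜) := by
          rw [span_le]
          rintro _ ⟨k, rfl⟩
          show f (n k) (x j) = 0
          rw [hs.bi, if_neg (hj k)]
        exact hle hg
      · have : {g : StrongDual 𝕜 E | ∀ j, (∀ k, n k ≠ j) → g (x j) = 0} =
            ⋂ j, ⋂ _ : ∀ k, n k ≠ j, {g : StrongDual 𝕜 E | g (x j) = 0} := by
          ext g
          simp
        rw [this]
        exact isClosed_iInter fun j => isClosed_iInter fun _ =>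
          isClosed_eq (ContinuousLinearMap.apply 𝕜 𝕜 (x j)).continuous continuous_const
    · intro g hg
      by_contra hno
      obtain ⟨G, hG, hGg⟩ := Pool.Agent.J4.H66.Sep.exists_sep _ hno
      apply hGg
      apply hstrong
      intro m
      by_cases hm : ∃ k, n k = m
      · obtain ⟨k, rfl⟩ := hm
        rw [hG _ (subset_span ⟨k, rfl⟩), mul_zero]
      · push Not at hm
        rw [hg m hm, zero_mul]
  refine ⟨?_, key⟩
  rw [key]
  have h4 : StrongDual.toWeakDual (𝕜 := 𝕜) (E := E) '' {g | ∀ j, (∀ k, n k ≠ j) → g (x j) = 0} =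
      ⋂ j, ⋂ _ : ∀ k, n k ≠ j, {g : WeakDual 𝕜 E | g (x j) = 0} := by
    ext g
    simp only [mem_image, mem_iInter]
    constructor
    · rintro ⟨g', hg', rfl⟩ j hj
      exact hg' j hj
    · intro h
      exact ⟨WeakDual.toStrongDual g, fun j hj => h j hj, rfl⟩
  rw [h4]
  exact isClosed_iInter fun j => isClosed_iInter fun _ =>
    isClosed_eq (WeakDual.eval_continuous (x j)) continuous_const

end Pool.Agent.Results.MP_0543b0_an.ClosedPartialSpans
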